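import Pool.Agent.R999.Brg

/-!
# The Thomas-Fermi molecular energy minus the atomic energies is not superadditive

For at least two nuclei at fixed distinct positions the interaction energy `e - ẽ` is positive when
all charges are positive, but it stays bounded when all the charges are multiplied by `n → ∞`
(the interaction of neutral Thomas-Fermi atoms at distance `l` is at most `C / l ^ 7`, with `C` not
depending on the charges). A superadditive function would grow at least linearly.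
-/

set_option autoImplicit false

open MeasureTheory Set Filter Topology Metric
open scoped ENNReal

namespace Pool.Agent.Results.MP_f156ce_mp.NotSuperadditive

/-- Three dimensional Euclidean space. -/
abbrev R3 := EuclideanSpace ℝ (Fin 3)

/-- `ρ ≥ 0`, `∫ ρ < ∞` and `∫ ρ^{5/3} < ∞`. -/
structure Density (ρ : R3 → ℝ) : Prop where
  nonneg : ∀ x, 0 ≤ ρ x
  integrable : Integrable ρ
  integrable_rpow : Integrable (fun x => ρ x ^ (5/3 : ℝ))

/-- The Thomas-Fermi functional `ξ(ρ)` of nuclei of charges `z j` at the positions `R j`. -/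
noncomputable def xi {k : ℕ} (R : Fin k → R3) (z : Fin k → ℝ) (ρ : R3 → ℝ) : ℝ :=
  3/5 * (∫ x, ρ x ^ (5/3 : ℝ)) - (∫ x, (∑ j, z j / ‖x - R j‖) * ρ x) +
    1/2 * (∫ x, ∫ y, ρ x * ρ y / ‖x - y‖) +
    ∑ i, ∑ j, if i < j then z i * z j / ‖R i - R j‖ else 0

/-- The energies of the densities of total mass `∑ z j`. -/
def energies {k : ℕ} (R : Fin k → R3) (z : Fin k → ℝ) : Set ℝ :=
  {E | ∃ ρ : R3 → ℝ, Density ρ ∧ ∫ x, ρ x = ∑ j, z j ∧ xi R z ρ = E}

/-- The neutral Thomas-Fermi energy `e(z)`. -/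
noncomputable def e {k : ℕ} (R : Fin k → R3) (z : Fin k → ℝ) : ℝ := sInf (energies R z)

/-- The energy of one atom: a single nucleus of charge `z` at the origin. -/
noncomputable def eAt (z : ℝ) : ℝ := e (fun _ : Fin 1 => (0 : R3)) (fun _ => z)

/-- The molecular energy minus the atomic energies, `e - ẽ`. -/
noncomputable def diff {k : ℕ} (R : Fin k → R3) (z : Fin k → ℝ) : ℝ := e R z - ∑ j, eAt (z j)

/-- Superadditivity on the orthant of vectors with nonnegative components. -/
def Superadditive {k : ℕ} (f : (Fin k → ℝ) → ℝ) : Prop :=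
  ∀ z₁ z₂ : Fin k → ℝ, (∀ i, 0 ≤ z₁ i) → (∀ i, 0 ≤ z₂ i) → f z₁ + f z₂ ≤ f (z₁ + z₂)

open Pool.Agent.TH791.Cl Pool.Agent.R999.MinP Pool.Agent.R999.Ex

lemma sum_lt {k : ℕ} (R : Fin k → R3) (z : Fin k → ℝ) :
    (∑ i, ∑ j, if i < j then z i * z j / ‖R i - R j‖ else 0) = UU z R := by
  unfold UU
  have h1 : ∑ p, ∑ q, z p * z q / ‖R p - R q‖ =
      (∑ i, ∑ j, if i < j then z i * z j / ‖R i - R j‖ else 0) +
      (∑ i, ∑ j, if j < i then z i * z j / ‖R i - R j‖ else 0) := by
    rw [← Finset.sum_add_distrib]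
    refine Finset.sum_congr rfl fun i _ => ?_
    rw [← Finset.sum_add_distrib]
    refine Finset.sum_congr rfl fun j _ => ?_
    rcases lt_trichotomy i j with h | h | h
    · simp [h, h.asymm]
    · subst h; simp
    · simp [h, h.asymm]
  have h2 : (∑ i, ∑ j, if j < i then z i * z j / ‖R i - R j‖ else 0) =
      ∑ i, ∑ j, if i < j then z i * z j / ‖R i - R j‖ else 0 := by
    rw [Finset.sum_comm]
    refine Finset.sum_congr rfl fun i _ => Finset.sum_congr rfl fun j _ => ?_
    rw [norm_sub_rev, mul_comm]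
  rw [h1, h2]; ring

lemma energies_eq {k : ℕ} (R : Fin k → R3) (z : Fin k → ℝ) :
    energies R z = {e : ℝ | ∃ σ, Pool.Agent.R999.TFMin.Dens σ ∧ ∫ x, σ x = ∑ j, z j ∧
      Pool.Agent.R999.TFMin.energy 1 (Vn z R) σ + UU z R = e} := by
  have h1 : ∀ ρ, xi R z ρ = Pool.Agent.R999.TFMin.energy 1 (Vn z R) ρ + UU z R := by
    intro ρ
    unfold xi Pool.Agent.R999.TFMin.energy
    rw [sum_lt, mul_one]; rfl
  ext e
  constructor
  · rintro ⟨ρ, ⟨a, b, c⟩, d, rfl⟩
    exact ⟨ρ, ⟨a, b, c⟩, d, (h1 ρ).symm⟩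
  · rintro ⟨ρ, ⟨a, b, c⟩, d, rfl⟩
    exact ⟨ρ, ⟨a, b, c⟩, d, h1 ρ⟩

lemma least_FE {k : ℕ} {z : Fin k → ℝ} {R : Fin k → R3} {ρ : R3 → ℝ} (h : TFs 1 z R ρ) :
    IsLeast (energies R z) (FE 1 z R ρ) := by
  rw [energies_eq]; exact least one_pos h

lemma e_eq {k : ℕ} {z : Fin k → ℝ} {R : Fin k → R3} {ρ : R3 → ℝ} (h : TFs 1 z R ρ) :
    e R z = FE 1 z R ρ := (least_FE h).csInf_eq

lemma e_least {k : ℕ} (R : Fin k → R3) {z : Fin k → ℝ} (hz : ∀ j, 0 ≤ z j) :
    IsLeast (energies R z) (e R z) := by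
  obtain ⟨ρ, hρ⟩ := tf_ex one_pos hz R
  rw [e_eq hρ]; exact least_FE hρ

/-- the energy of one nucleus of the molecule -/
lemma single {k : ℕ} (R : Fin k → R3) {z : Fin k → ℝ} (hz : ∀ j, 0 ≤ z j) (m : Fin k)
    {ρ : R3 → ℝ} (T : TFs 1 (zS id z {m}) R ρ) : FE 1 (zS id z {m}) R ρ = eAt (z m) := by
  obtain ⟨ρ0, T0⟩ := tf_ex (ι := Fin 1) one_pos (z := fun _ => z m) (fun _ => hz m)
    (fun _ => (0 : R3))
  have hsum : ∀ F : Fin k → ℝ, ∑ p, zS id z {m} p * F p = z m * F m := by
    intro F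
    rw [Finset.sum_eq_single m]
    · unfold zS; simp
    · intro b _ hb
      unfold zS; simp [hb]
    · intro h; exact absurd (Finset.mem_univ m) h
  have hV : ∀ x, Vn (zS id z {m}) R x = Vn (fun _ : Fin 1 => z m) (fun _ => (0 : R3)) (x - R m) := by
    intro x
    unfold Vn
    have h := hsum (fun p => 1 / ‖x - R p‖)
    simp only [mul_one_div] at h
    rw [h]; simp
  have hm : ∑ j, zS id z {m} j = ∑ _j : Fin 1, z m := by
    have h := hsum (fun _ => 1)
    simpa using h
  have T1 : TFs 1 (zS id z {m}) R (fun x => ρ0 (x - R m)) := by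
    refine T0.shift hV hm fun x hx j hj => ?_
    rw [sub_ne_zero]
    refine hx m ?_
    unfold zS; simpa using hj
  have hU : UU (zS id z {m}) R = 0 := by
    unfold UU
    have h1 : ∀ p, ∑ q, zS id z {m} p * zS id z {m} q / ‖R p - R q‖ =
        zS id z {m} p * (z m * (1 / ‖R p - R m‖)) := by
      intro p
      rw [← hsum (fun q => 1 / ‖R p - R q‖), Finset.mul_sum]
      exact Finset.sum_congr rfl fun q _ => by ring
    rw [Finset.sum_congr rfl fun p _ => h1 p, hsum (fun p => z m * (1 / ‖R p - R m‖))]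
    simp
  have hU1 : UU (fun _ : Fin 1 => z m) (fun _ => (0 : R3)) = 0 := by
    unfold UU; simp
  rw [T.en_eq one_pos T1]
  unfold eAt
  rw [e_eq T0]
  unfold FE
  rw [hU, hU1, En_shift T0.md hV]

lemma zS_univ {k : ℕ} (z : Fin k → ℝ) : zS id z Finset.univ = z := by
  funext p; unfold zS; simp

/-- the interaction energy is bounded uniformly in the charges -/
lemma bounded {k : ℕ} (hk : 2 ≤ k) {R : Fin k → R3} (hR : Function.Injective R) :
    ∃ C : ℝ, ∀ z : Fin k → ℝ, (∀ j, 0 ≤ z j) → diff R z ≤ C := by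
  classical
  obtain ⟨d, hd, hsep⟩ : ∃ d : ℝ, 0 < d ∧ ∀ a b, a ≠ b → d ≤ ‖R a - R b‖ := by
    set T : Finset (Fin k × Fin k) := Finset.univ.filter fun p => p.1 ≠ p.2 with hT
    have hne : T.Nonempty := by
      refine ⟨(⟨0, by omega⟩, ⟨1, by omega⟩), ?_⟩
      rw [hT, Finset.mem_filter]
      refine ⟨Finset.mem_univ _, ?_⟩
      intro h
      simp at h
    obtain ⟨p, hp, hmin⟩ := Finset.exists_min_image T (fun p => ‖R p.1 - R p.2‖) hne
    rw [hT, Finset.mem_filter] at hp
    refine ⟨‖R p.1 - R p.2‖, norm_pos_iff.2 (sub_ne_zero.2 fun h => hp.2 (hR h)),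
      fun a b hab => ?_⟩
    exact hmin (a, b) (by rw [hT, Finset.mem_filter]; exact ⟨Finset.mem_univ _, hab⟩)
  refine ⟨(Finset.univ : Finset (Fin k)).card *
    (Cup 1 (Fintype.card (Fin k)) (Fintype.card (Fin k)) / (d / 8) ^ 7), fun z hz => ?_⟩
  choose ρ T using fun S : Finset (Fin k) => tf_ex one_pos (zS_nonneg (col := id) hz S) R
  have h1 := all_up (col := id) one_pos hz T (Y := R) (s := d / 8) (by positivity)
    (fun p m _ hpm => by
      have := hsep p m hpm
      linarith) (fun p _ => by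
      rw [id_eq, sub_self, norm_zero]; positivity) Finset.univ
  rw [Finset.sum_congr rfl fun m _ => single R hz m (T {m})] at h1
  have h2 : FE 1 (zS id z Finset.univ) R (ρ Finset.univ) = e R z := by
    have h3 := T Finset.univ
    rw [zS_univ] at h3 ⊢
    exact (e_eq h3).symm
  rw [h2] at h1
  unfold diff
  linarith

/-- the interaction energy of a molecule with positive charges is positive -/
lemma positive {k : ℕ} (hk : 2 ≤ k) {R : Fin k → R3} (hR : Function.Injective R)
    {z : Fin k → ℝ} (hz : ∀ j, 0 < z j) : 0 < diff R z := by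
  classical
  have hz' : ∀ j, 0 ≤ z j := fun j => (hz j).le
  choose ρ T using fun S : Finset (Fin k) => tf_ex one_pos (zS_nonneg (col := id) hz' S) R
  set a : Fin k := ⟨0, by omega⟩ with ha
  set b : Fin k := ⟨1, by omega⟩ with hb
  have hab : b ≠ a := by
    intro h
    rw [ha, hb] at h
    simp at h
  have h1 := all_lo (col := id) (R := R) one_pos hz' (fun p q _ _ hpq h => hpq (hR h)) T hab
    (Finset.univ \ {a, b}) (by simp) (by simp)
  have e1 : insert a (insert b (Finset.univ \ {a, b})) = (Finset.univ : Finset (Fin k)) := by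
    ext x
    simp only [Finset.mem_insert, Finset.mem_sdiff, Finset.mem_univ, Finset.mem_singleton,
      true_and, iff_true]
    tauto
  rw [e1, Finset.sum_congr rfl fun m _ => single R hz' m (T {m})] at h1
  have h2 : FE 1 (zS id z Finset.univ) R (ρ Finset.univ) = e R z := by
    have h3 := T Finset.univ
    rw [zS_univ] at h3 ⊢
    exact (e_eq h3).symm
  rw [h2] at h1
  -- the overlap
  have hpos : ∀ m, 0 < zS id z {m} m := fun m => by
    have := hz m
    unfold zS; simpa using this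
  obtain ⟨ca, hca, La⟩ := (T {a}).dens_ge one_pos (zS_nonneg hz' {a}) (hpos a)
  obtain ⟨cb, hcb, Lb⟩ := (T {b}).dens_ge one_pos (zS_nonneg hz' {b}) (hpos b)
  obtain ⟨q, hq⟩ : ∃ q : R3, ‖q‖ = 3 + ‖R a‖ + ‖R b‖ := exists_norm_eq R3 (by positivity)
  set B : ℝ := ‖q‖ + ‖R a‖ + ‖R b‖ + 1 with hB
  have hB0 : 0 < B := by positivity
  have gen : ∀ (m : Fin k) (cm : ℝ), 0 < cm → min ca cb ≤ cm → ‖R m‖ ≤ ‖R a‖ + ‖R b‖ →
      (∀ᵐ x, 1 ≤ ‖x - R m‖ → cm / ‖x - R m‖ ^ 6 ≤ ρ {m} x) →
      ∀ᵐ x, x ∈ ball q 1 → (min ca cb / B ^ 6) / 1 ^ 6 ≤ ρ {m} x := by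
    intro m cm hcm hmin hRm hL
    filter_upwards [hL] with x hx hxb
    rw [mem_ball, dist_eq_norm] at hxb
    have n1 : ‖q‖ ≤ ‖x - R m‖ + ‖x - q‖ + ‖R m‖ := by
      have : q = (x - R m) - (x - q) + R m := by abel
      calc ‖q‖ = ‖(x - R m) - (x - q) + R m‖ := by rw [← this]
        _ ≤ ‖(x - R m) - (x - q)‖ + ‖R m‖ := norm_add_le _ _
        _ ≤ _ := by
          have := norm_sub_le (x - R m) (x - q)
          linarith
    have n2 : ‖x - R m‖ ≤ ‖x - q‖ + ‖q‖ + ‖R m‖ := by
      have : x - R m = (x - q) + q - R m := by abel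
      rw [this]
      have h3 := norm_sub_le ((x - q) + q) (R m)
      have h4 := norm_add_le (x - q) q
      linarith
    have n3 : 1 ≤ ‖x - R m‖ := by linarith
    have n4 : ‖x - R m‖ ≤ B := by linarith
    have n5 : 0 < ‖x - R m‖ := by linarith
    refine le_trans ?_ (hx n3)
    rw [one_pow, div_one]
    have n9 : ‖x - R m‖ ^ 6 ≤ B ^ 6 := pow_le_pow_left₀ n5.le n4 6
    exact div_le_div₀ hcm.le hmin (by positivity) n9
  have hmin0 : 0 < min ca cb := lt_min hca hcb
  have h5 := gain_lo (T {a}).md (T {b}).md one_pos (K := min ca cb / B ^ 6) (by positivity) q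
    (gen a ca hca (min_le_left _ _) (by linarith [norm_nonneg (R b)]) La)
    (gen b cb hcb (min_le_right _ _) (by linarith [norm_nonneg (R a)]) Lb)
  have hpi := Real.pi_pos
  have h6 : 0 < 4/3 * Real.pi * (min ca cb / B ^ 6) ^ (5/3 : ℝ) / 1 ^ 7 := by positivity
  unfold diff
  linarith

/-- **Answer to Q1.** Let `R` be distinct points of `ℝ³`, `k ≥ 1` in number. For all charges
`z ≥ 0` the neutral Thomas-Fermi energy `e(z)` is a minimum, and the function `e - ẽ` is
superadditive on the orthant if and only if `k = 1`. -/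
theorem result (k : ℕ) (hk : 1 ≤ k) (R : Fin k → R3) (hR : Function.Injective R) :
    (∀ z : Fin k → ℝ, (∀ j, 0 ≤ z j) → IsLeast (energies R z) (e R z)) ∧
    (Superadditive (diff R) ↔ k = 1) := by
  refine ⟨fun z hz => e_least R hz, ?_, ?_⟩
  · intro hS
    by_contra hk1
    have hk2 : 2 ≤ k := by omega
    obtain ⟨C, hC⟩ := bounded hk2 hR
    have h0 := positive hk2 hR (z := fun _ => 1) (fun _ => one_pos)
    have key : ∀ n : ℕ, (n + 1 : ℝ) * diff R (fun _ => 1) ≤ diff R (fun _ => (n + 1 : ℝ)) := by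
      intro n
      induction n with
      | zero => simp
      | succ n ih =>
        have h1 := hS (fun _ => (n + 1 : ℝ)) (fun _ => 1) (fun _ => by positivity)
          (fun _ => zero_le_one)
        have h2 : ((fun _ => (n + 1 : ℝ)) + (fun _ => 1) : Fin k → ℝ) =
            fun _ => ((n + 1 : ℕ) + 1 : ℝ) := by
          funext i; simp
        rw [h2] at h1
        push_cast at h1 ⊢
        linarith
    obtain ⟨n, hn⟩ := exists_nat_gt (C / diff R (fun _ => 1))
    rw [div_lt_iff₀ h0] at hn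
    have h1 := key n
    have h2 := hC (fun _ => (n + 1 : ℝ)) (fun _ => by positivity)
    nlinarith
  · intro hk1
    subst hk1
    have h0 : ∀ z : Fin 1 → ℝ, (∀ j, 0 ≤ z j) → diff R z = 0 := by
      intro z hz
      obtain ⟨ρ, hρ⟩ := tf_ex one_pos hz R
      have e1 : zS id z {0} = z := by
        funext p
        have : p = 0 := Subsingleton.elim _ _
        subst this
        unfold zS; simp
      have h1 := single R hz 0 (ρ := ρ) (by rw [e1]; exact hρ)
      rw [e1, ← e_eq hρ] at h1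
      unfold diff
      rw [h1]; simp
    intro z₁ z₂ h1 h2
    rw [h0 z₁ h1, h0 z₂ h2, h0 (z₁ + z₂) fun i => add_nonneg (h1 i) (h2 i)]
    simp

end Pool.Agent.Results.MP_f156ce_mp.NotSuperadditive
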